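import Pool.Agent.R742.EG.Final

set_option autoImplicit false

namespace Pool.Agent.Results.MP_3d6d95_lc.NotDetermined

open Pool.Agent.R742.EG

/-- There is a monotone graph property `S` on `ℕ` (a set of graphs invariant under isomorphism and
closed under adding edges) for which the elusiveness game `G(S)` is not determined: neither Seeker
nor Hider has a winning strategy. -/
theorem result : ∃ S : Set (SimpleGraph ℕ), IsGraphProperty S ∧ IsMonotoneProperty S ∧
    ¬ Determined S :=
  not_determined

end Pool.Agent.Results.MP_3d6d95_lc.NotDetermined
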