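import Pool.Agent.R71.EG.All

set_option autoImplicit false

/-!
# MP_3d6d95_lc: an undetermined elusiveness game

There is a monotone graph property `S` on `ℕ` such that neither Seeker nor Hider has a winning
strategy in the elusiveness game `G(S)`.
-/

namespace Pool.Agent.Results.MP_3d6d95_lc.Undetermined

/-- A move of the game: the pair picked by Seeker and the colour given to it by Hider
(`true` = green, `false` = red). -/
abbrev Move := Sym2 ℕ × Bool

/-- A finite history, in the order of play. -/
abbrev History := List Move

/-- The history consisting of the moves `0, …, n - 1` of the run `h`. -/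
def history (h : ℕ → Move) (n : ℕ) : History := (List.range n).map h

/-- A run is legal if at every turn Seeker picks a pair of distinct natural numbers that is still
white. -/
def Legal (h : ℕ → Move) : Prop := ∀ n, ¬ (h n).1.IsDiag ∧ ∀ i < n, (h i).1 ≠ (h n).1

/-- `G_∞`: the graph of the pairs coloured green during the run. -/
def green (h : ℕ → Move) : SimpleGraph ℕ := SimpleGraph.fromEdgeSet {e | ∃ n, h n = (e, true)}

/-- `W_∞`: the graph of the pairs still white after the run. -/
def white (h : ℕ → Move) : SimpleGraph ℕ := SimpleGraph.fromEdgeSet {e | ∀ n, (h n).1 ≠ e}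

/-- Seeker wins the run `h`: some pair is still white, and either all graphs `X` with
`G_∞ ⊆ X ⊆ G_∞ ∪ W_∞` are in `S` or none of them is. -/
def SeekerWins (S : Set (SimpleGraph ℕ)) (h : ℕ → Move) : Prop :=
  white h ≠ ⊥ ∧
    ((∀ X : SimpleGraph ℕ, green h ≤ X → X ≤ green h ⊔ white h → X ∈ S) ∨
     (∀ X : SimpleGraph ℕ, green h ≤ X → X ≤ green h ⊔ white h → X ∉ S))

/-- Seeker has a winning strategy: a function of the finite history such that every run played
according to it is legal and won by Seeker. -/
def SeekerHasWinningStrategy (S : Set (SimpleGraph ℕ)) : Prop :=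
  ∃ σ : History → Sym2 ℕ, ∀ h : ℕ → Move, (∀ n, (h n).1 = σ (history h n)) →
    Legal h ∧ SeekerWins S h

/-- Hider has a winning strategy: a function of the finite history and of the pair just picked
by Seeker such that every legal run in which Hider plays according to it is won by Hider. -/
def HiderHasWinningStrategy (S : Set (SimpleGraph ℕ)) : Prop :=
  ∃ τ : History → Sym2 ℕ → Bool, ∀ h : ℕ → Move, Legal h →
    (∀ n, (h n).2 = τ (history h n) (h n).1) → ¬ SeekerWins S h

/-- There is a monotone graph property (isomorphism-invariant and closed under adding edges)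
for which the elusiveness game is not determined. -/
theorem result : ∃ S : Set (SimpleGraph ℕ),
    (∀ (G : SimpleGraph ℕ) (π : Equiv.Perm ℕ), G ∈ S → G.map π.toEmbedding ∈ S) ∧
    (∀ G G' : SimpleGraph ℕ, G ∈ S → G ≤ G' → G' ∈ S) ∧
    ¬ SeekerHasWinningStrategy S ∧ ¬ HiderHasWinningStrategy S := by
  obtain ⟨S, h1, h2, h3, h4⟩ := EG71.final_all
  refine ⟨S, ?_, fun G G' hG hle => h1 G G' hle hG, ?_, ?_⟩
  · intro G π hG
    exact h2 G _ ⟨SimpleGraph.Iso.map π G⟩ hG
  · rintro ⟨σ, hσ⟩
    exact h3 ⟨σ, fun h hc => hσ h hc⟩
  · rintro ⟨τ, hτ⟩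
    exact h4 ⟨τ, fun h hl hc => hτ h hl hc⟩

end Pool.Agent.Results.MP_3d6d95_lc.Undetermined
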